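import Pool.Agent.H17.SD.Targets

/-!
# The denominator
-/

set_option autoImplicit false
set_option linter.unusedVariables false

namespace Pool.Agent.H11.SFG

open MvPolynomial SC Pool.Agent.H27.LV
open Pool.Agent.H92.SF Pool.Agent.H3.SF Pool.Agent.H17.SD

theorem pf_JEX (h1 : T_ITA) (h2 : T_QDA) (h3 : T_QDD) (h4 : T_QDH) : T_JEX := by
  intro k F _ _ _ _ u θ dd hu hfd hgen hθ hdd hE
  have hEu : ∀ l, eu u dd (u l) = u l := by
    intro l
    unfold eu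
    rw [Fin.sum_univ_three]
    simp only [Derivation.add_apply, Derivation.smul_apply, smul_eq_mul, hdd]
    fin_cases l <;> simp
  obtain ⟨hA1, hA2, hA3⟩ := h2 k F (Fin 3) u θ hu hfd hgen hθ
  obtain ⟨P, e, hP0, hPe, b, hb, hPb⟩ := h4 k F u θ (eu u dd) hu hfd hθ hEu hE hA3 hA2
  obtain ⟨q, hq⟩ : ∃ q : F, q = qd k u θ := ⟨_, rfl⟩
  rw [← hq] at hA1 hA2 hA3 hPb
  have hD : ∀ l : Fin 3, ∀ x ∈ PB k u θ, q * dd l x ∈ PB k u θ := by
    intro l x hx
    rw [hq]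
    refine h3 k F (Fin 3) u θ hu hfd hθ (dd l) (fun i => ?_) x hx
    rw [hdd]
    split_ifs
    · exact (PA k u).one_mem
    · exact (PA k u).zero_mem
  have hJ : aeval u (P ^ 3) = q ^ 3 * b ^ 3 := by
    rw [map_pow, hPb, mul_pow]
  refine ⟨P ^ 3, e * 3, hPe.pow 3, pow_ne_zero 3 hP0, fun a ha => ?_, fun a l ha => ?_,
    q ^ 2 * b ^ 3, ?_, ?_⟩
  · rw [hJ]
    have h5 : q ^ 3 * b ^ 3 * a = q * a * (q ^ 2 * b ^ 3) := by ring
    rw [h5]
    exact (PB k u θ).mul_mem (hA1 a ha)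
      ((PB k u θ).mul_mem ((PB k u θ).pow_mem hA2 2) ((PB k u θ).pow_mem hb 3))
  · rw [hJ]
    have h5 : dd l (q * a) = q * dd l a + a * dd l q := by
      rw [Derivation.leibniz, smul_eq_mul, smul_eq_mul]
    have h6 : q ^ 3 * b ^ 3 * dd l a =
        b ^ 3 * (q * (q * dd l (q * a)) - q * a * (q * dd l q)) := by
      rw [h5]
      ring
    rw [h6]
    exact (PB k u θ).mul_mem ((PB k u θ).pow_mem hb 3) ((PB k u θ).sub_mem
      ((PB k u θ).mul_mem hA2 (hD l _ (hA1 a ha)))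
      ((PB k u θ).mul_mem (hA1 a ha) (hD l _ hA2)))
  · exact (PB k u θ).mul_mem ((PB k u θ).pow_mem hA2 2) ((PB k u θ).pow_mem hb 3)
  · rw [hJ, ← hq]
    ring

end Pool.Agent.H11.SFG
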